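import Mathlib

set_option autoImplicit false

namespace Pool.Agent.Work.MP_620d87_co

open Matrix

/-- An oriented graph on `V`: a simple graph each of whose edges is given exactly one of its
two directions; `arc a b` says that `{a,b}` is an edge, directed from `a` to `b`. -/
structure OrientedGraph (V : Type) where
  arc : V → V → Prop
  asymm : ∀ a b, arc a b → ¬ arc b a

section Defs

variable {V : Type} [Fintype V] [DecidableEq V]

open Classical in
/-- The skew-symmetric adjacency matrix. -/
noncomputable def OrientedGraph.adj (X : OrientedGraph V) : Matrix V V ℝ :=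
  Matrix.of fun a b => if X.arc a b then 1 else if X.arc b a then -1 else 0

/-- The transition matrix `U(t) = exp(tA)`. -/
noncomputable def OrientedGraph.U (X : OrientedGraph V) (t : ℝ) : Matrix V V ℝ :=
  NormedSpace.exp (t • X.adj)

/-- Perfect state transfer from `a` to `b`. -/
def OrientedGraph.PST (X : OrientedGraph V) (a b : V) : Prop :=
  ∃ τ : ℝ, ∃ lam : ℝ, |lam| = 1 ∧
    X.U τ *ᵥ (Pi.single a 1 : V → ℝ) = lam • (Pi.single b 1 : V → ℝ)

/-- Multiple state transfer on `S`. -/
def OrientedGraph.MultipleStateTransfer (X : OrientedGraph V) (S : Finset V) : Prop :=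
  ∀ a ∈ S, ∀ b ∈ S, a ≠ b → X.PST a b

/-- The matrix `P D`, where `P` is the permutation matrix of `σ` (so `P e_a = e_{σ a}`) and `D` is
the diagonal matrix with diagonal `d`. -/
def signedPerm (σ : Equiv.Perm V) (d : V → ℝ) : Matrix V V ℝ :=
  (Matrix.of fun i j => if i = σ j then (1 : ℝ) else 0) * Matrix.diagonal d

/-- `P D` is a switching automorphism of `X`. -/
def OrientedGraph.IsSwitchingAut (X : OrientedGraph V) (σ : Equiv.Perm V) (d : V → ℝ) : Prop :=
  (∀ v, d v = 1 ∨ d v = -1) ∧ (signedPerm σ d)ᵀ * X.adj * signedPerm σ d = X.adj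

/-- The multiple state transfer on `S` arises from a switching automorphism `P D`: for some `a ∈ S`
there is perfect state transfer from `a` to `σ a` (the vertex `c` with `P D e_a = ± e_c`) and `S` is
contained in `{a, σ a, σ² a, …}`. -/
def OrientedGraph.ArisesFromSwitching (X : OrientedGraph V) (S : Finset V) : Prop :=
  ∃ (σ : Equiv.Perm V) (d : V → ℝ), X.IsSwitchingAut σ d ∧
    ∃ a ∈ S, X.PST a (σ a) ∧ ∀ s ∈ S, ∃ k : ℕ, s = (σ ^ k) a

/-- `P D e_a = ± e_{σ a}`. -/
theorem signedPerm_mulVec_single (σ : Equiv.Perm V) (d : V → ℝ) (a : V) :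
    signedPerm σ d *ᵥ (Pi.single a 1 : V → ℝ) = d a • (Pi.single (σ a) 1 : V → ℝ) := by
  ext i
  simp [signedPerm, Pi.single_apply]

end Defs

end Pool.Agent.Work.MP_620d87_co
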