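import Mathlib
import Pool.Agent.Work.MP_620d87_co.Defs

set_option autoImplicit false

namespace Pool.Agent.Work.MP_620d87_co

open Matrix

section General

variable {V : Type} [Fintype V] [DecidableEq V]

attribute [local instance] Matrix.linftyOpNormedRing Matrix.linftyOpNormedAlgebra

theorem exp_mulVec_eq (A : Matrix V V ℝ) (x : ℝ → V → ℝ)
    (hx : ∀ t, HasDerivAt x (A *ᵥ x t) t) (t : ℝ) :
    NormedSpace.exp (t • A) *ᵥ x 0 = x t := by
  have hE : ∀ s : ℝ, HasDerivAt (fun u : ℝ => NormedSpace.exp (u • (-A)))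
      (NormedSpace.exp (s • (-A)) * (-A)) s := fun s => hasDerivAt_exp_smul_const (-A) s
  have hEij : ∀ (s : ℝ) (i j : V), HasDerivAt (fun u : ℝ => NormedSpace.exp (u • (-A)) i j)
      ((NormedSpace.exp (s • (-A)) * (-A)) i j) s := by
    intro s i j
    exact ((Matrix.entryLinearMap ℝ ℝ i j).toContinuousLinearMap.hasFDerivAt.comp_hasDerivAt s
      (hE s))
  have hxj : ∀ (s : ℝ) (j : V), HasDerivAt (fun u : ℝ => x u j) ((A *ᵥ x s) j) s :=
    fun s j => (hasDerivAt_pi.1 (hx s)) j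
  have hg : ∀ (i : V) (s : ℝ),
      HasDerivAt (fun u : ℝ => (NormedSpace.exp (u • (-A)) *ᵥ x u) i) 0 s := by
    intro i s
    have h := HasDerivAt.fun_sum (u := Finset.univ) (fun j _ => (hEij s i j).mul (hxj s j))
    have h0 : (∑ j, ((NormedSpace.exp (s • (-A)) * (-A)) i j * x s j +
        NormedSpace.exp (s • (-A)) i j * (A *ᵥ x s) j)) = 0 := by
      rw [Finset.sum_add_distrib]
      have e1 : (∑ j, (NormedSpace.exp (s • (-A)) * (-A)) i j * x s j)
          = ((NormedSpace.exp (s • (-A)) * (-A)) *ᵥ x s) i := rfl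
      have e2 : (∑ j, NormedSpace.exp (s • (-A)) i j * (A *ᵥ x s) j)
          = (NormedSpace.exp (s • (-A)) *ᵥ (A *ᵥ x s)) i := rfl
      rw [e1, e2, Matrix.mulVec_mulVec, ← Pi.add_apply, ← Matrix.add_mulVec]
      simp
    rw [h0] at h
    exact h
  have hconst : NormedSpace.exp (t • (-A)) *ᵥ x t = x 0 := by
    ext i
    have := is_const_of_deriv_eq_zero
      (f := fun u : ℝ => (NormedSpace.exp (u • (-A)) *ᵥ x u) i)
      (fun s => (hg i s).differentiableAt) (fun s => (hg i s).deriv) t 0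
    simpa using this
  rw [← hconst, Matrix.mulVec_mulVec, ← Matrix.exp_add_of_commute]
  · simp
  · simp [Commute, SemiconjBy]

end General

/-- The adjacency matrix of the nine-vertex example, with integer entries. -/
def M : Fin 9 → Fin 9 → ℤ :=
  ![![ 0,  1, -1,  1,  1,  0,  0, -1, -1],
    ![-1,  0,  1, -1, -1,  1,  1,  0,  0],
    ![ 1, -1,  0,  0,  0, -1, -1,  1,  1],
    ![-1,  1,  0,  0,  0,  1, -1,  0,  0],
    ![-1,  1,  0,  0,  0, -1,  1,  0,  0],
    ![ 0, -1,  1, -1,  1,  0,  0,  0,  0],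
    ![ 0, -1,  1,  1, -1,  0,  0,  0,  0],
    ![ 1,  0, -1,  0,  0,  0,  0,  0,  0],
    ![ 1,  0, -1,  0,  0,  0,  0,  0,  0]]

theorem M_entries : ∀ a b : Fin 9, (M a b = 1 ∧ M b a = -1) ∨ (M a b = -1 ∧ M b a = 1) ∨
    (M a b = 0 ∧ M b a = 0) := by decide

/-- The nine-vertex example. -/
def X : OrientedGraph (Fin 9) where
  arc a b := M a b = 1
  asymm a b h h' := by
    have := M_entries a b
    omega

theorem X_adj : X.adj = Matrix.of fun a b => (M a b : ℝ) := by
  ext a b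
  have h := M_entries a b
  simp only [OrientedGraph.adj, X, Matrix.of_apply]
  rcases h with ⟨h1, h2⟩ | ⟨h1, h2⟩ | ⟨h1, h2⟩ <;> simp [h1, h2]

/-- Coordinates of `exp(tA) e_0` on the centres `0,1,2`. -/
noncomputable def c (r : Fin 3) (t : ℝ) : ℝ :=
  match r with
  | 0 => 1/3 + (2/9) * (2 * Real.cos (2 * √3 * t) + Real.cos (√3 * t))
  | 1 => 1/3 + (2/9) * (- Real.cos (2 * √3 * t) - √3 * Real.sin (2 * √3 * t)
      - Real.cos (√3 * t) / 2 + √3 / 2 * Real.sin (√3 * t))
  | 2 => 1/3 + (2/9) * (- Real.cos (2 * √3 * t) + √3 * Real.sin (2 * √3 * t)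
      - Real.cos (√3 * t) / 2 - √3 / 2 * Real.sin (√3 * t))

/-- Coordinates of `exp(tA) e_0` on the cells `{3,4}`, `{5,6}`, `{7,8}`. -/
noncomputable def l (r : Fin 3) (t : ℝ) : ℝ :=
  match r with
  | 0 => (2/9) * (Real.cos (2 * √3 * t) / 2 - √3 / 2 * Real.sin (2 * √3 * t)
      - Real.cos (√3 * t) / 2 - √3 / 2 * Real.sin (√3 * t))
  | 1 => (2/9) * (- Real.cos (2 * √3 * t) + Real.cos (√3 * t))
  | 2 => (2/9) * (Real.cos (2 * √3 * t) / 2 + √3 / 2 * Real.sin (2 * √3 * t)
      - Real.cos (√3 * t) / 2 + √3 / 2 * Real.sin (√3 * t))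

/-- The solution started at centre `r`. -/
noncomputable def x (r : Fin 3) (t : ℝ) : Fin 9 → ℝ :=
  ![c (0 - r) t, c (1 - r) t, c (2 - r) t, l (0 - r) t, l (0 - r) t, l (1 - r) t, l (1 - r) t,
    l (2 - r) t, l (2 - r) t]

theorem s3 : √3 * √3 = (3 : ℝ) := Real.mul_self_sqrt (by norm_num)

theorem hC1 (t : ℝ) : HasDerivAt (fun t : ℝ => Real.cos (√3 * t)) (-(√3 * Real.sin (√3 * t))) t := by
  have h := ((hasDerivAt_id t).const_mul (√3)).cos
  simpa [mul_comm] using h

theorem hS1 (t : ℝ) : HasDerivAt (fun t : ℝ => Real.sin (√3 * t)) (√3 * Real.cos (√3 * t)) t := by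
  have h := ((hasDerivAt_id t).const_mul (√3)).sin
  simpa [mul_comm] using h

theorem hC2 (t : ℝ) : HasDerivAt (fun t : ℝ => Real.cos (2 * √3 * t))
    (-(2 * √3 * Real.sin (2 * √3 * t))) t := by
  have h := ((hasDerivAt_id t).const_mul (2 * √3)).cos
  simpa [mul_comm] using h

theorem hS2 (t : ℝ) : HasDerivAt (fun t : ℝ => Real.sin (2 * √3 * t))
    (2 * √3 * Real.cos (2 * √3 * t)) t := by
  have h := ((hasDerivAt_id t).const_mul (2 * √3)).sin
  simpa [mul_comm] using h

theorem hc0 (t : ℝ) : HasDerivAt (c 0) (c 1 t - c 2 t + 2 * l 0 t - 2 * l 2 t) t := by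
  have h := (((hC2 t).const_mul 2).add (hC1 t)).const_mul (2/9) |>.const_add (1/3)
  refine (h.congr_deriv ?_)
  simp only [c, l]
  ring

theorem hc1 (t : ℝ) : HasDerivAt (c 1) (c 2 t - c 0 t + 2 * l 1 t - 2 * l 0 t) t := by
  have h := (((((hC2 t).neg).sub ((hS2 t).const_mul (√3))).sub ((hC1 t).div_const 2)).add
    ((hS1 t).const_mul (√3 / 2))).const_mul (2/9) |>.const_add (1/3)
  refine (h.congr_deriv ?_)
  simp only [c, l]
  linear_combination (Real.cos (√3 * t) / 9 - 4 * Real.cos (2 * √3 * t) / 9) * s3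

theorem hc2 (t : ℝ) : HasDerivAt (c 2) (c 0 t - c 1 t + 2 * l 2 t - 2 * l 1 t) t := by
  have h := (((((hC2 t).neg).add ((hS2 t).const_mul (√3))).sub ((hC1 t).div_const 2)).sub
    ((hS1 t).const_mul (√3 / 2))).const_mul (2/9) |>.const_add (1/3)
  refine (h.congr_deriv ?_)
  simp only [c, l]
  linear_combination (-Real.cos (√3 * t) / 9 + 4 * Real.cos (2 * √3 * t) / 9) * s3

theorem hl0 (t : ℝ) : HasDerivAt (l 0) (c 1 t - c 0 t) t := by
  have h := (((((hC2 t).div_const 2).sub ((hS2 t).const_mul (√3 / 2))).sub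
    ((hC1 t).div_const 2)).sub ((hS1 t).const_mul (√3 / 2))).const_mul (2/9)
  refine (h.congr_deriv ?_)
  simp only [c]
  linear_combination (-Real.cos (√3 * t) / 9 - 2 * Real.cos (2 * √3 * t) / 9) * s3

theorem hl1 (t : ℝ) : HasDerivAt (l 1) (c 2 t - c 1 t) t := by
  have h := (((hC2 t).neg).add (hC1 t)).const_mul (2/9)
  refine (h.congr_deriv ?_)
  simp only [c]
  ring

theorem hl2 (t : ℝ) : HasDerivAt (l 2) (c 0 t - c 2 t) t := by
  have h := (((((hC2 t).div_const 2).add ((hS2 t).const_mul (√3 / 2))).sub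
    ((hC1 t).div_const 2)).add ((hS1 t).const_mul (√3 / 2))).const_mul (2/9)
  refine (h.congr_deriv ?_)
  simp only [c]
  linear_combination (Real.cos (√3 * t) / 9 + 2 * Real.cos (2 * √3 * t) / 9) * s3

theorem hc (j : Fin 3) (t : ℝ) :
    HasDerivAt (c j) (c (j + 1) t - c (j + 2) t + 2 * l j t - 2 * l (j + 2) t) t := by
  fin_cases j
  · exact hc0 t
  · exact hc1 t
  · exact hc2 t

theorem hl (j : Fin 3) (t : ℝ) : HasDerivAt (l j) (c (j + 1) t - c j t) t := by
  fin_cases j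
  · exact hl0 t
  · exact hl1 t
  · exact hl2 t

theorem hx (r : Fin 3) (t : ℝ) : HasDerivAt (x r) (X.adj *ᵥ x r t) t := by
  rw [X_adj, hasDerivAt_pi]
  intro i
  fin_cases i
  · refine (hc (0 - r) t).congr_deriv ?_
    have e1 : (0 - r + 1 : Fin 3) = 1 - r := by fin_cases r <;> rfl
    have e2 : (0 - r + 2 : Fin 3) = 2 - r := by fin_cases r <;> rfl
    rw [e1, e2]
    simp [x, M, Matrix.mulVec, dotProduct, Fin.sum_univ_succ]
    ring
  · refine (hc (1 - r) t).congr_deriv ?_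
    have e1 : (1 - r + 1 : Fin 3) = 2 - r := by fin_cases r <;> rfl
    have e2 : (1 - r + 2 : Fin 3) = 0 - r := by fin_cases r <;> rfl
    rw [e1, e2]
    simp [x, M, Matrix.mulVec, dotProduct, Fin.sum_univ_succ]
    ring
  · refine (hc (2 - r) t).congr_deriv ?_
    have e1 : (2 - r + 1 : Fin 3) = 0 - r := by fin_cases r <;> rfl
    have e2 : (2 - r + 2 : Fin 3) = 1 - r := by fin_cases r <;> rfl
    rw [e1, e2]
    simp [x, M, Matrix.mulVec, dotProduct, Fin.sum_univ_succ]
    ring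
  · refine (hl (0 - r) t).congr_deriv ?_
    have e1 : (0 - r + 1 : Fin 3) = 1 - r := by fin_cases r <;> rfl
    rw [e1]
    simp [x, M, Matrix.mulVec, dotProduct, Fin.sum_univ_succ]
    ring
  · refine (hl (0 - r) t).congr_deriv ?_
    have e1 : (0 - r + 1 : Fin 3) = 1 - r := by fin_cases r <;> rfl
    rw [e1]
    simp [x, M, Matrix.mulVec, dotProduct, Fin.sum_univ_succ]
    ring
  · refine (hl (1 - r) t).congr_deriv ?_
    have e1 : (1 - r + 1 : Fin 3) = 2 - r := by fin_cases r <;> rfl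
    rw [e1]
    simp [x, M, Matrix.mulVec, dotProduct, Fin.sum_univ_succ]
    ring
  · refine (hl (1 - r) t).congr_deriv ?_
    have e1 : (1 - r + 1 : Fin 3) = 2 - r := by fin_cases r <;> rfl
    rw [e1]
    simp [x, M, Matrix.mulVec, dotProduct, Fin.sum_univ_succ]
    ring
  · refine (hl (2 - r) t).congr_deriv ?_
    have e1 : (2 - r + 1 : Fin 3) = 0 - r := by fin_cases r <;> rfl
    rw [e1]
    simp [x, M, Matrix.mulVec, dotProduct, Fin.sum_univ_succ]
    ring
  · refine (hl (2 - r) t).congr_deriv ?_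
    have e1 : (2 - r + 1 : Fin 3) = 0 - r := by fin_cases r <;> rfl
    rw [e1]
    simp [x, M, Matrix.mulVec, dotProduct, Fin.sum_univ_succ]
    ring

/-- The vertex of the nine-vertex example which is centre `r`. -/
def ctr (r : Fin 3) : Fin 9 := ![0, 1, 2] r

theorem neg1 : (-1 : Fin 3) = 2 := by decide

theorem neg2 : (-2 : Fin 3) = 1 := by decide

theorem c00 : c 0 0 = 1 := by simp [c]; norm_num

theorem c10 : c 1 0 = 0 := by simp [c]; norm_num

theorem c20 : c 2 0 = 0 := by simp [c]; norm_num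

theorem l00 : l 0 0 = 0 := by simp [l]

theorem l10 : l 1 0 = 0 := by simp [l]

theorem l20 : l 2 0 = 0 := by simp [l]

theorem x_zero (r : Fin 3) : x r 0 = Pi.single (ctr r) 1 := by
  ext i
  fin_cases r <;> fin_cases i <;> simp [x, ctr, neg1, neg2, c00, c10, c20, l00, l10, l20]

/-- The transfer time. -/
noncomputable def T : ℝ := 2 * Real.pi / (3 * √3)

theorem sT : √3 * T = 2 * Real.pi / 3 := by
  have h : √3 ≠ 0 := by positivity
  unfold T
  field_simp

theorem cos1 : Real.cos (√3 * T) = -1/2 := by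
  rw [sT, show 2 * Real.pi / 3 = Real.pi - Real.pi / 3 by ring, Real.cos_pi_sub,
    Real.cos_pi_div_three]
  norm_num

theorem sin1 : Real.sin (√3 * T) = √3 / 2 := by
  rw [sT, show 2 * Real.pi / 3 = Real.pi - Real.pi / 3 by ring, Real.sin_pi_sub,
    Real.sin_pi_div_three]

theorem cos2 : Real.cos (2 * √3 * T) = -1/2 := by
  rw [mul_assoc, sT, show 2 * (2 * Real.pi / 3) = Real.pi / 3 + Real.pi by ring, Real.cos_add_pi,
    Real.cos_pi_div_three]
  norm_num

theorem sin2 : Real.sin (2 * √3 * T) = -(√3 / 2) := by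
  rw [mul_assoc, sT, show 2 * (2 * Real.pi / 3) = Real.pi / 3 + Real.pi by ring, Real.sin_add_pi,
    Real.sin_pi_div_three]

theorem c0T : c 0 T = 0 := by
  simp only [c, cos1, cos2]; norm_num

theorem c1T : c 1 T = 1 := by
  simp only [c, cos1, cos2, sin1, sin2]
  linear_combination (1/6) * s3

theorem c2T : c 2 T = 0 := by
  simp only [c, cos1, cos2, sin1, sin2]
  linear_combination (-1/6) * s3

theorem l0T : l 0 T = 0 := by
  simp only [l, cos1, cos2, sin1, sin2]
  ring

theorem l1T : l 1 T = 0 := by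
  simp only [l, cos1, cos2]
  ring

theorem l2T : l 2 T = 0 := by
  simp only [l, cos1, cos2, sin1, sin2]
  ring

theorem x_T (r : Fin 3) : x r T = Pi.single (ctr (r + 1)) 1 := by
  ext i
  fin_cases r <;> fin_cases i <;> simp [x, ctr, neg1, neg2, c0T, c1T, c2T, l0T, l1T, l2T]

theorem U_T (r : Fin 3) : X.U T *ᵥ (Pi.single (ctr r) 1 : Fin 9 → ℝ) = Pi.single (ctr (r + 1)) 1 := by
  rw [← x_zero, ← x_T]
  exact exp_mulVec_eq X.adj (x r) (hx r) T

theorem U_two_T (r : Fin 3) :
    X.U (2 * T) *ᵥ (Pi.single (ctr r) 1 : Fin 9 → ℝ) = Pi.single (ctr (r + 2)) 1 := by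
  have h : X.U (2 * T) = X.U T * X.U T := by
    unfold OrientedGraph.U
    rw [two_mul, add_smul, Matrix.exp_add_of_commute]
    exact Commute.refl _
  rw [h, ← Matrix.mulVec_mulVec, U_T, U_T, add_assoc]
  rfl

theorem pst1 (r : Fin 3) : X.PST (ctr r) (ctr (r + 1)) :=
  ⟨T, 1, by simp, by rw [U_T, one_smul]⟩

theorem pst2 (r : Fin 3) : X.PST (ctr r) (ctr (r + 2)) :=
  ⟨2 * T, 1, by simp, by rw [U_two_T, one_smul]⟩

/-- The number of walks of length two starting at a vertex of the underlying graph. -/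
def w (v : Fin 9) : ℤ := ∑ u, ∑ z, M v u ^ 2 * M u z ^ 2

theorem w_values : ∀ v : Fin 9, w v = 28 → v = 1 := by decide

theorem w_values' : ∀ v : Fin 9, w v = 24 → v = 0 ∨ v = 2 := by decide

theorem sw_entry (σ : Equiv.Perm (Fin 9)) (d : Fin 9 → ℝ) (h : X.IsSwitchingAut σ d)
    (i j : Fin 9) : d i * d j * (M (σ i) (σ j) : ℝ) = (M i j : ℝ) := by
  obtain ⟨hd, hA⟩ := h
  have h1 := congrFun (congrFun hA i) j
  rw [X_adj] at h1
  simp only [signedPerm, Matrix.mul_apply, Matrix.transpose_apply, Matrix.of_apply,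
    Matrix.diagonal_apply] at h1
  simp at h1
  linarith

theorem sw_w (σ : Equiv.Perm (Fin 9)) (d : Fin 9 → ℝ) (h : X.IsSwitchingAut σ d) (v : Fin 9) :
    w (σ v) = w v := by
  have hd2 : ∀ v, d v ^ 2 = 1 := fun v => by rcases h.1 v with h | h <;> rw [h] <;> norm_num
  have hsq : ∀ i j : Fin 9, M (σ i) (σ j) ^ 2 = M i j ^ 2 := by
    intro i j
    have h1 := sw_entry σ d h i j
    have h2 : ((M (σ i) (σ j) : ℝ)) ^ 2 = (M i j : ℝ) ^ 2 := by
      rw [← h1, mul_pow, mul_pow, hd2, hd2]; ring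
    exact_mod_cast h2
  unfold w
  rw [← Equiv.sum_comp σ]
  refine Finset.sum_congr rfl fun u _ => ?_
  rw [← Equiv.sum_comp σ]
  refine Finset.sum_congr rfl fun z _ => ?_
  rw [hsq, hsq]

theorem fixes_one (σ : Equiv.Perm (Fin 9)) (d : Fin 9 → ℝ) (h : X.IsSwitchingAut σ d) :
    σ 1 = 1 :=
  w_values _ ((sw_w σ d h 1).trans (by decide))

theorem fixes_all (σ : Equiv.Perm (Fin 9)) (d : Fin 9 → ℝ) (h : X.IsSwitchingAut σ d) :
    σ 0 = 0 ∧ σ 1 = 1 ∧ σ 2 = 2 := by
  have h1 := fixes_one σ d h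
  have h0 := w_values' _ ((sw_w σ d h 0).trans (by decide))
  have h2 := w_values' _ ((sw_w σ d h 2).trans (by decide))
  rcases h0 with h0 | h0
  · refine ⟨h0, h1, ?_⟩
    rcases h2 with h2 | h2
    · exact absurd (σ.injective (h2.trans h0.symm)) (by decide)
    · exact h2
  · exfalso
    have h2' : σ 2 = 0 := by
      rcases h2 with h2 | h2
      · exact h2
      · exact absurd (σ.injective (h2.trans h0.symm)) (by decide)
    have e1 := sw_entry σ d h 0 1
    have e2 := sw_entry σ d h 1 2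
    have e3 := sw_entry σ d h 2 0
    rw [h0, h1] at e1
    rw [h1, h2'] at e2
    rw [h2', h0] at e3
    have m21 : (M 2 1 : ℝ) = -1 := by simp [M]
    have m10 : (M 1 0 : ℝ) = -1 := by simp [M]
    have m02 : (M 0 2 : ℝ) = -1 := by simp [M]
    have m01 : (M 0 1 : ℝ) = 1 := by simp [M]
    have m12 : (M 1 2 : ℝ) = 1 := by simp [M]
    have m20 : (M 2 0 : ℝ) = 1 := by simp [M]
    rw [m21, m01] at e1
    rw [m10, m12] at e2
    rw [m02, m20] at e3
    have e : (d 0 * d 1 * -1) * (d 1 * d 2 * -1) * (d 2 * d 0 * -1) = 1 := by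
      rw [e1, e2, e3]; norm_num
    nlinarith [sq_nonneg (d 0 * d 1 * d 2)]

/-- There is an oriented graph, on nine vertices, with non-trivial multiple state transfer that
does not arise from a switching automorphism; in fact every switching automorphism of it fixes
every vertex of `S`. -/
theorem main : ∃ (X : OrientedGraph (Fin 9)) (S : Finset (Fin 9)),
    3 ≤ S.card ∧ X.MultipleStateTransfer S ∧ ¬ X.ArisesFromSwitching S ∧
    ∀ (σ : Equiv.Perm (Fin 9)) (d : Fin 9 → ℝ), X.IsSwitchingAut σ d → ∀ a ∈ S, σ a = a := by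
  have hfix : ∀ (σ : Equiv.Perm (Fin 9)) (d : Fin 9 → ℝ), X.IsSwitchingAut σ d →
      ∀ a ∈ ({0, 1, 2} : Finset (Fin 9)), σ a = a := by
    intro σ d hσ a ha
    obtain ⟨h0, h1, h2⟩ := fixes_all σ d hσ
    simp only [Finset.mem_insert, Finset.mem_singleton] at ha
    rcases ha with rfl | rfl | rfl <;> assumption
  refine ⟨X, {0, 1, 2}, by decide, ?_, ?_, hfix⟩
  · intro a ha b hb hab
    have h01 := pst1 0
    have h12 := pst1 1
    have h20 := pst1 2
    have h02 := pst2 0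
    have h10 := pst2 1
    have h21 := pst2 2
    simp only [Finset.mem_insert, Finset.mem_singleton] at ha hb
    rcases ha with rfl | rfl | rfl <;> rcases hb with rfl | rfl | rfl <;>
      first | exact absurd rfl hab | assumption
  · rintro ⟨σ, d, hσ, a, ha, -, hS⟩
    have hk : ∀ k : ℕ, (σ ^ k) a = a := by
      intro k
      induction k with
      | zero => rfl
      | succ k ih => rw [pow_succ, Equiv.Perm.mul_apply, hfix σ d hσ a ha, ih]
    obtain ⟨k, hk1⟩ := hS 1 (by decide)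
    obtain ⟨k', hk0⟩ := hS 0 (by decide)
    rw [hk] at hk0 hk1
    exact absurd (hk0.trans hk1.symm) (by decide)

end Pool.Agent.Work.MP_620d87_co
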